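import Pool.Agent.MP_228983_ag.Hd

/-!
If the Kuznetsov component of the Veronese double cone carries one Serre-invariant stability
condition, then every stability condition on it is Serre-invariant.
-/

namespace Pool.Agent.Results.MP_228983_ag.AllStab

open Pool.Agent.MP_228983_ag

theorem result (Y : Sextic) (S : SerreFunctor Y.Ku) (σ τ : Stab Y.Ku)
    (hσ : σ.SerreInvariant S) : τ.SerreInvariant S := by
  obtain ⟨m⟩ := modelS Y
  exact (homDim_main m S σ τ hσ).1

end Pool.Agent.Results.MP_228983_ag.AllStab
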