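import Pool.Agent.Mg.F53d700.G8b2062

/-!
Uniqueness of Serre-invariant stability conditions on the Kuznetsov component of the Veronese
double cone: any two of them lie in the same orbit of the universal cover of GL_2^+(R).
-/

namespace Pool.Agent.Results.MP_228983_ag.Unique

open Pool.Agent.MP_228983_ag

theorem result (Y : Sextic) (S : SerreFunctor Y.Ku) (σ τ : Stab Y.Ku)
    (hσ : σ.SerreInvariant S) (hτ : τ.SerreInvariant S) : ∃ g : GLt, σ.Acts g τ := by
  obtain ⟨m⟩ := modelS Y
  exact unique_main m S σ τ hσ hτ

end Pool.Agent.Results.MP_228983_ag.Unique
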